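import Pool.Agent.Helper14_SN.Stmts

set_option autoImplicit false

/-! Module SEL: selection of a basis by elimination. -/

namespace Pool.Agent.SN.H11

open Pool.Agent.SN

section

variable {F : Type} [Field F] {n : ℕ} {k : Fin n → ℕ} {w : ℕ}

theorem zip_eq (l : List (PA k)) (h : l.length ≤ w) :
    (List.finRange w).zip l =
      List.ofFn (fun j : Fin l.length => ((⟨j.1, lt_of_lt_of_le j.2 h⟩ : Fin w), l[j.1])) := by
  apply List.ext_getElem
  · simp [h]
  · intro i h1 h2
    simp

theorem zip_sum (l : List (PA k)) (h : l.length ≤ w) (g : Fin w × PA k → F) :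
    (((List.finRange w).zip l).map g).sum =
      ∑ j : Fin l.length, g (⟨j.1, lt_of_lt_of_le j.2 h⟩, l[j.1]) := by
  rw [zip_eq l h, List.map_ofFn, List.sum_ofFn]
  rfl

/-- the invariant of the elimination -/
structure Inv (f : PA k → Fin w → F) (c : List (PA k))
    (st : (Fin w → Fin w → F) × List (PA k) × List (Rel F k)) : Prop where
  ha : st.2.1.length ≤ w
  hb : st.2.1.length + st.2.2.length = c.length
  hc : ∀ s ∈ st.2.1, s ∈ c
  hd : ∀ s ∈ c, s ∈ st.2.1 ∨ ∃ ρ ∈ st.2.2, ρ.at_ = s
  he : ∀ ρ ∈ st.2.2, ρ.at_ ∈ c ∧ ρ.comb.length ≤ w ∧ (∀ p ∈ ρ.comb, p.2 ∈ st.2.1) ∧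
    ∀ i, f ρ.at_ i = (ρ.comb.map fun p => p.1 * f p.2 i).sum
  inj : ∀ v : Fin w → F, (∀ i, ∑ j, st.1 i j * v j = 0) → v = 0
  unit : ∀ (j : ℕ) (hj : j < st.2.1.length) (i : Fin w),
    ∑ l, st.1 i l * f (st.2.1[j]) l = if i.val = j then 1 else 0

/-- the matrix after one elimination step -/
def q2 (Q : Fin w → Fin w → F) (y : Fin w → F) (r c : Fin w) : Fin w → Fin w → F := fun i j =>
  if i = r then (y c)⁻¹ * (if r = r then Q c else if r = c then Q r else Q r) j
  else (if i = r then Q c else if i = c then Q r else Q i) j -
    (if i = r then y c else if i = c then y r else y i) *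
      ((y c)⁻¹ * (if r = r then Q c else if r = c then Q r else Q r) j)

theorem q2_r (Q : Fin w → Fin w → F) (y : Fin w → F) (r c : Fin w) (v : Fin w → F) :
    ∑ l, q2 Q y r c r l * v l = (y c)⁻¹ * ∑ l, Q c l * v l := by
  rw [Finset.mul_sum]
  apply Finset.sum_congr rfl
  intro l _
  simp only [q2, if_true]
  ring

theorem q2_c (Q : Fin w → Fin w → F) (y : Fin w → F) {r c : Fin w} (h : c ≠ r) (v : Fin w → F) :
    ∑ l, q2 Q y r c c l * v l = ∑ l, Q r l * v l - y r * ((y c)⁻¹ * ∑ l, Q c l * v l) := by
  rw [Finset.mul_sum, Finset.mul_sum, ← Finset.sum_sub_distrib]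
  apply Finset.sum_congr rfl
  intro l _
  simp only [q2, if_true, if_neg h]
  ring

theorem q2_o (Q : Fin w → Fin w → F) (y : Fin w → F) {r c i : Fin w} (h : i ≠ r) (h' : i ≠ c)
    (v : Fin w → F) :
    ∑ l, q2 Q y r c i l * v l = ∑ l, Q i l * v l - y i * ((y c)⁻¹ * ∑ l, Q c l * v l) := by
  rw [Finset.mul_sum, Finset.mul_sum, ← Finset.sum_sub_distrib]
  apply Finset.sum_congr rfl
  intro l _
  simp only [q2, if_true, if_neg h, if_neg h']
  ring

variable [DecidableEq F]

theorem inv_step (f : PA k → Fin w → F) (c : List (PA k))
    (st : (Fin w → Fin w → F) × List (PA k) × List (Rel F k)) (s : PA k) (h : Inv f c st) :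
    Inv f (c ++ [s]) (Net.step f st s) := by
  obtain ⟨Q, sel, rel⟩ := st
  obtain ⟨ha, hb, hc, hd, he, hinj, hunit⟩ := h
  simp only at ha hb hc hd he hinj hunit
  unfold Net.step
  dsimp only
  split
  · rename_i c0 hfind
    have hp := List.find?_some hfind
    simp only [Bool.and_eq_true, decide_eq_true_eq] at hp
    obtain ⟨hp1, hp2⟩ := hp
    have hr : sel.length < w := lt_of_le_of_lt hp1 c0.2
    rw [dif_pos hr]
    set y : Fin w → F := fun i => ∑ j, Q i j * f s j with hy
    have hyc : y c0 ≠ 0 := hp2
    set r : Fin w := ⟨sel.length, hr⟩ with hrdef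
    change Inv f (c ++ [s]) (q2 Q y r c0, sel ++ [s], rel)
    refine ⟨?_, ?_, ?_, ?_, ?_, ?_, ?_⟩
    · simp only [List.length_append, List.length_singleton]
      omega
    · simp only [List.length_append, List.length_singleton]
      omega
    · intro s' hs'
      simp only [List.mem_append, List.mem_singleton] at hs' ⊢
      rcases hs' with h | h
      · exact Or.inl (hc _ h)
      · exact Or.inr h
    · intro s' hs'
      simp only [List.mem_append, List.mem_singleton] at hs' ⊢
      rcases hs' with h | h
      · rcases hd s' h with h | h
        · exact Or.inl (Or.inl h)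
        · exact Or.inr h
      · exact Or.inl (Or.inr h)
    · intro ρ hρ
      obtain ⟨e1, e2, e3, e4⟩ := he ρ hρ
      exact ⟨List.mem_append_left _ e1, e2, fun p hp => List.mem_append_left _ (e3 p hp), e4⟩
    · intro v hv
      simp only at hv
      have hvr : ∑ j, Q c0 j * v j = 0 := by
        have h1 := hv r
        rw [q2_r] at h1
        rcases mul_eq_zero.1 h1 with h3 | h3
        · exact absurd h3 (inv_ne_zero hyc)
        · exact h3
      apply hinj
      intro i
      by_cases hi : i = c0
      · rw [hi]
        exact hvr
      · by_cases hi2 : i = r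
        · have h0 : c0 ≠ r := fun h => hi (hi2.trans h.symm)
          have h1 := hv c0
          rw [q2_c Q y h0, hvr, mul_zero, mul_zero, sub_zero] at h1
          rw [hi2]
          exact h1
        · have h1 := hv i
          rw [q2_o Q y hi2 hi, hvr, mul_zero, mul_zero, sub_zero] at h1
          exact h1
    · intro j hj i
      simp only
      rcases Nat.lt_or_ge j sel.length with hj1 | hj1
      · have hget : (sel ++ [s])[j] = sel[j] := List.getElem_append_left hj1
        rw [hget]
        have hc0 : ∑ l, Q c0 l * f sel[j] l = 0 := by
          rw [hunit j hj1 c0, if_neg (by omega)]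
        by_cases hi : i = r
        · rw [hi, q2_r, hc0, mul_zero, if_neg]
          simp only [hrdef]
          omega
        · by_cases hi2 : i = c0
          · have h1 : c0 ≠ r := fun h => hi (hi2.trans h)
            rw [hi2, q2_c Q y h1, hc0, mul_zero, mul_zero, sub_zero, hunit j hj1 r,
              if_neg (by simp only [hrdef]; omega), if_neg (by omega)]
          · rw [q2_o Q y hi hi2, hc0, mul_zero, mul_zero, sub_zero, hunit j hj1 i]
      · have hj2 : j = sel.length := by
          simp only [List.length_append, List.length_singleton] at hj
          omega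
        subst hj2
        have hget : (sel ++ [s])[sel.length] = s := by simp
        rw [hget]
        have h1 : ∀ i, (∑ l, Q i l * f s l) = y i := fun i => rfl
        by_cases hi : i = r
        · rw [hi, q2_r, h1, if_pos rfl]
          exact inv_mul_cancel₀ hyc
        · have h3 : ¬ (i.val = sel.length) := by
            intro h
            apply hi
            exact Fin.ext h
          by_cases hi2 : i = c0
          · have h2 : c0 ≠ r := fun h => hi (hi2.trans h)
            rw [if_neg h3, hi2, q2_c Q y h2, h1, h1, inv_mul_cancel₀ hyc, mul_one, sub_self]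
          · rw [if_neg h3, q2_o Q y hi hi2, h1, h1, inv_mul_cancel₀ hyc, mul_one, sub_self]
  · rename_i hfind
    rw [List.find?_eq_none] at hfind
    set y : Fin w → F := fun i => ∑ j, Q i j * f s j with hy
    have hy0 : ∀ i : Fin w, sel.length ≤ i.val → y i = 0 := by
      intro i hi
      have := hfind i (List.mem_finRange i)
      simp only [Bool.and_eq_true, decide_eq_true_eq, not_and, not_not] at this
      exact this hi
    refine ⟨?_, ?_, ?_, ?_, ?_, ?_, ?_⟩
    · exact ha
    · simp only [List.length_append, List.length_singleton]
      omega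
    · intro s' hs'
      exact List.mem_append_left _ (hc _ hs')
    · intro s' hs'
      simp only [List.mem_append, List.mem_singleton] at hs' ⊢
      rcases hs' with h | h
      · rcases hd s' h with h | ⟨ρ, h1, h2⟩
        · exact Or.inl h
        · exact Or.inr ⟨ρ, Or.inl h1, h2⟩
      · exact Or.inr ⟨_, Or.inr rfl, h.symm⟩
    · intro ρ hρ
      simp only [List.mem_append, List.mem_singleton] at hρ
      rcases hρ with hρ | hρ
      · obtain ⟨e1, e2, e3, e4⟩ := he ρ hρ
        exact ⟨List.mem_append_left _ e1, e2, e3, e4⟩
      · subst hρ
        refine ⟨by simp, by simp, ?_, ?_⟩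
        · intro p hp
          simp only [List.mem_map] at hp
          obtain ⟨q, hq, rfl⟩ := hp
          exact (List.of_mem_zip hq).2
        · simp only [List.map_map]
          have hv := hinj (fun l => f s l - ∑ j : Fin sel.length,
            y ⟨j.1, lt_of_lt_of_le j.2 ha⟩ * f (sel[j.1]) l) (by
              intro i
              have h1 : ∑ l, Q i l * (f s l - ∑ j : Fin sel.length,
                  y ⟨j.1, lt_of_lt_of_le j.2 ha⟩ * f (sel[j.1]) l) =
                  y i - ∑ j : Fin sel.length, y ⟨j.1, lt_of_lt_of_le j.2 ha⟩ *
                    ∑ l, Q i l * f (sel[j.1]) l := by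
                simp only [mul_sub, Finset.sum_sub_distrib, Finset.mul_sum]
                congr 1
                rw [Finset.sum_comm]
                apply Finset.sum_congr rfl
                intro j _
                apply Finset.sum_congr rfl
                intro l _
                ring
              rw [h1]
              have h2 : ∑ j : Fin sel.length, y ⟨j.1, lt_of_lt_of_le j.2 ha⟩ *
                    ∑ l, Q i l * f (sel[j.1]) l =
                  ∑ j : Fin sel.length, if i.val = j.val then y i else 0 := by
                apply Finset.sum_congr rfl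
                intro j _
                rw [hunit j.1 j.2 i]
                split_ifs with h
                · rw [mul_one]
                  congr 1
                  exact Fin.ext h.symm
                · rw [mul_zero]
              rw [h2]
              rcases Nat.lt_or_ge i.val sel.length with h | h
              · rw [Finset.sum_eq_single (⟨i.val, h⟩ : Fin sel.length)]
                · simp
                · intro b _ hb
                  rw [if_neg]
                  intro h3
                  exact hb (Fin.ext h3.symm)
                · intro h3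
                  exact absurd (Finset.mem_univ _) h3
              · rw [Finset.sum_eq_zero, sub_zero]
                · exact hy0 i h
                · intro j _
                  rw [if_neg]
                  have := j.2
                  omega)
          intro i
          have h3 := congrFun hv i
          simp only [Pi.zero_apply, sub_eq_zero] at h3
          rw [h3, zip_sum sel ha]
          rfl
    · exact hinj
    · exact hunit

omit [DecidableEq F] in
theorem inv_init (f : PA k → Fin w → F) :
    Inv f [] ((fun i j => if i = j then 1 else 0, [], []) :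
      (Fin w → Fin w → F) × List (PA k) × List (Rel F k)) := by
  refine ⟨by simp, by simp, by simp, by simp, by simp, ?_, ?_⟩
  · intro v hv
    funext i
    have := hv i
    simpa using this
  · intro j hj
    simp at hj

theorem inv_foldl (f : PA k → Fin w → F) (c : List (PA k)) :
    Inv f c (c.foldl (Net.step f) (fun i j => if i = j then 1 else 0, [], [])) := by
  induction c using List.reverseRecOn with
  | nil => exact inv_init f
  | append_singleton c s ih =>
    rw [List.foldl_append]
    exact inv_step f c _ s ih

end

theorem sel : SelStmt := by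
  intro F _ _ n k w f c
  have h := inv_foldl f c
  exact ⟨h.ha, h.hb, h.hc, h.hd, h.he⟩

end Pool.Agent.SN.H11
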